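import Pool.Agent.H58.FL.TargetsB

/-!
MP_6a7a6f_gt, board flc_modules, row PFZ: push-forward of the chain of the subdivided cube.
-/

set_option autoImplicit false

namespace Pool.Agent.H89.FL

open Pool.Agent.H58.FL Pool.Agent.H59 Pool.Agent.H48.FR

theorem pf_PFZ : T_PFZ := by
  intro Y Z _ _ d N H g
  unfold ZZ
  rw [map_sum]
  refine Finset.sum_congr rfl fun x _ => ?_
  rw [map_sum]
  refine Finset.sum_congr rfl fun π _ => ?_
  rw [pf_single]
  rfl

end Pool.Agent.H89.FL

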