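import Pool.Agent.H58.FL.TargetsD

/-!
# Filling radius of complex projective spaces (MP_6a7a6f_gt): row RD2, the number `rad 2`
-/

set_option autoImplicit false

open Pool.Agent.H58.FL Pool.Agent.H59 Pool.Agent.H48.FR

namespace Pool.Agent.H89.FL

/-- RD2: the number `rad 2`. -/
theorem pf_RD2 (hNU3 : T_NU3) : T_RD2 := by
  have h5 : Real.sqrt 5 * Real.sqrt 5 = 5 := Real.mul_self_sqrt (by norm_num)
  have hs : 0 < Real.sqrt 5 := Real.sqrt_pos.2 (by norm_num)
  have hk : 2 * k2 - 1 = -(Real.sqrt 5)⁻¹ := by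
    unfold k2
    have : (Real.sqrt 5)⁻¹ = Real.sqrt 5 / 5 := by
      field_simp
      nlinarith
    rw [this]
    ring
  have hrad : rad 2 = Real.arccos (2 * k2 - 1) / 4 := by
    unfold rad
    have e1 : Real.pi / (2 * ((2 : ℕ) : ℝ) + 1) = Real.pi / 5 := by norm_num
    have e2 : Real.cos (Real.pi / 5) = (1 + Real.sqrt 5) / 4 := by
      have := hNU3.2.2.1.1
      rw [this]
      unfold gr
      ring
    rw [e1, e2, hk]
    congr 3
    rw [div_eq_iff (by positivity)]
    field_simp
    nlinarith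
  refine ⟨hrad, hk, fun ε hε => ?_⟩
  rw [hrad] at hε
  have hk1 : k2 < 1 := by
    have := hNU3.2.1.2.2.1
    linarith
  have hcont : Continuous fun κ : ℝ => Real.arccos (2 * κ - 1) / 4 :=
    (Real.continuous_arccos.comp ((continuous_const.mul continuous_id).sub
      continuous_const)).div_const 4
  have hopen : IsOpen {κ : ℝ | ε < Real.arccos (2 * κ - 1) / 4} :=
    isOpen_lt continuous_const hcont
  obtain ⟨δ, hδ, hball⟩ := Metric.isOpen_iff.1 hopen k2 hε
  have hm : 0 < min (δ / 2) (1 - k2) := lt_min (by linarith) (by linarith)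
  have hm1 : min (δ / 2) (1 - k2) ≤ δ / 2 := min_le_left _ _
  have hm2 : min (δ / 2) (1 - k2) ≤ 1 - k2 := min_le_right _ _
  refine ⟨k2 + min (δ / 2) (1 - k2), by linarith, by linarith, ?_⟩
  have hin : k2 + min (δ / 2) (1 - k2) ∈ Metric.ball k2 δ := by
    rw [Metric.mem_ball, Real.dist_eq, add_sub_cancel_left, abs_of_pos hm]
    linarith
  exact hball hin

end Pool.Agent.H89.FL
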